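import Pool.Agent.H75C.HY.NF

/-!
# Parts A4, A6 and the conclusion of the first part (helper89)
-/

set_option autoImplicit false

namespace Pool.Agent.H89B.NF

open Pool.Agent.H75C.HY Pool.Agent.H75C.HY.NF

open Classical

theorem wf_one (τ : Bool) (k d : ℕ) : wf τ k d (one k) := by
  cases k with
  | zero => trivial
  | succ k => trivial

theorem wf_pro (τ : Bool) (k d i : ℕ) : wf τ k d (pro k i) := by
  cases k with
  | zero => trivial
  | succ k => trivial

theorem dsup_wf (τ : Bool) (k d : ℕ) (c : Finset (E k))
    (h : ∀ e ∈ c, ewf (wf τ k (d + 1)) (d + 1) e) : ∀ e ∈ dsup τ c, ewf (wf τ (k + 1) d) d e := by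
  intro e he
  unfold dsup at he
  obtain ⟨A, hA, rfl⟩ := Finset.mem_image.1 he
  obtain ⟨hA0, hAc⟩ := Finset.mem_erase.1 hA
  rw [Finset.mem_powerset] at hAc
  show wf τ (k + 1) d (tst' τ A)
  unfold tst'
  split_ifs with h1
  · exact wf_one τ (k + 1) d
  · exact ⟨hA0, fun ht hA1 => h1 ⟨ht, hA1⟩, fun e he => h e (hAc he)⟩

theorem a4 : A4 := by
  intro 𝔅 τ φ
  induction φ with
  | prop i =>
    intro k env d _ e he
    rw [sup, Finset.mem_singleton] at he
    subst he
    exact wf_pro τ k d i
  | nom i =>
    intro k env d _ e he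
    rw [sup, Finset.mem_singleton] at he
    subst he
    trivial
  | var x =>
    intro k env d henv e he
    rw [sup] at he
    split_ifs at he with h1
    · rw [Finset.mem_singleton] at he
      subst he
      exact wf_one τ k d
    · rw [Finset.mem_singleton] at he
      subst he
      show outer d (env x)
      cases hx : env x with
      | nom i => trivial
      | fr y => trivial
      | lv j =>
        have h2 := henv x j hx
        have h3 : j ≠ d := by
          rintro rfl
          exact h1 hx
        show j < d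
        omega
  | app b φ ih =>
    intro k env d henv e he
    rw [sup, Finset.mem_filter, Finset.mem_insert, Finset.mem_biUnion] at he
    rcases he.1 with rfl | ⟨i, -, hi⟩
    · exact wf_one τ k d
    · exact ih i k env d henv e hi
  | dia φ ih =>
    intro k env d henv e he
    cases k with
    | zero => rw [sup] at he; exact absurd he (Finset.notMem_empty _)
    | succ k =>
      rw [sup] at he
      exact dsup_wf τ k d _ (ih k env (d + 1) fun x j hx => (henv x j hx).trans (Nat.le_succ d)) e he
  | box φ ih =>
    intro k env d henv e he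
    cases k with
    | zero => rw [sup] at he; exact absurd he (Finset.notMem_empty _)
    | succ k =>
      rw [sup, Finset.mem_symmDiff] at he
      rcases he with ⟨he, -⟩ | ⟨he, -⟩
      · rw [Finset.mem_singleton] at he
        subst he
        exact wf_one τ (k + 1) d
      · refine dsup_wf τ k d _ ?_ e he
        intro e' he'
        rw [Finset.mem_symmDiff] at he'
        rcases he' with ⟨he', -⟩ | ⟨he', -⟩
        · rw [Finset.mem_singleton] at he'
          subst he'
          exact wf_one τ k (d + 1)
        · exact ih k env (d + 1) (fun x j hx => (henv x j hx).trans (Nat.le_succ d)) e' he'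
  | bind x φ ih =>
    intro k env d henv e he
    rw [sup] at he
    refine ih k _ d ?_ e he
    intro y j hy
    by_cases hyx : y = x
    · subst hyx
      rw [Function.update_self] at hy
      injection hy with hy
      exact hy.symm.le
    · rw [Function.update_of_ne hyx] at hy
      exact henv y j hy
  | atNom i φ _ =>
    intro k env d _ e he
    rw [sup] at he
    exact absurd he (Finset.notMem_empty _)
  | atVar x φ _ =>
    intro k env d _ e he
    rw [sup] at he
    exact absurd he (Finset.notMem_empty _)

/-- the model around a gadget -/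
def gm (τ : Bool) (G : Gd) : Model where
  W := G.P ⊕ Nm
  R := fun a b => match a, b with
    | .inl p, .inl q => G.R p q
    | .inl p, .inr x => outer 0 x ∧ G.out p x
    | .inr _, .inl _ => False
    | .inr x, .inr y => τ = true ∧ x = y
  V := fun i a => match a with
    | .inl p => G.V i p
    | .inr _ => False
  nm := fun i => .inr (.nom i)

theorem gm_host (τ : Bool) (G : Gd) :
    Host 0 G (gm τ G) (fun x => Sum.inr x) (fun p => Sum.inl p) where
  inj := Sum.inl_injective
  R := by
    intro p v
    rcases v with q | x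
    · constructor
      · intro h
        exact Or.inl ⟨q, h, rfl⟩
      · rintro (⟨q', h1, h2⟩ | ⟨x, -, -, h2⟩)
        · rw [Sum.inl_injective h2]
          exact h1
        · exact absurd h2 Sum.inl_ne_inr
    · constructor
      · intro h
        exact Or.inr ⟨x, h.1, h.2, rfl⟩
      · rintro (⟨q', -, h2⟩ | ⟨y, h1, h3, h2⟩)
        · exact absurd h2 Sum.inr_ne_inl
        · rw [Sum.inr_injective h2]
          exact ⟨h1, h3⟩
  V := fun _ _ => Iff.rfl
  ne := fun _ _ _ => Sum.inr_ne_inl
  rinj := fun _ _ _ _ h => Sum.inr_injective h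

theorem exists_min {α : Type} (r : α → α → Prop) (hr : ∀ a, r a a)
    (htr : ∀ a b c, r a b → r b c → r a c) (has : ∀ a b, r a b → r b a → a = b) (S : Finset α)
    (hS : S.Nonempty) : ∃ t ∈ S, ∀ t' ∈ S, r t' t → t' = t := by
  obtain ⟨t, ht, hmin⟩ := Finset.exists_min_image S (fun t => (S.filter (fun u => r u t)).card) hS
  refine ⟨t, ht, fun t' ht' hr' => ?_⟩
  by_contra hne
  have h1 := hmin t' ht'
  have h2 : S.filter (fun u => r u t') ⊂ S.filter (fun u => r u t) := by
    rw [Finset.ssubset_iff_of_subset]
    · refine ⟨t, Finset.mem_filter.2 ⟨ht, hr t⟩, fun h => ?_⟩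
      exact hne (has t' t hr' (Finset.mem_filter.1 h).2)
    · intro u hu
      rw [Finset.mem_filter] at hu ⊢
      exact ⟨hu.1, htr u t' t hu.2 hr'⟩
  have h3 := Finset.card_lt_card h2
  exact absurd h1 (not_le.2 h3)

theorem a6 (h2 : A2) (h5 : A5) : A6 := by
  intro τ k s hs hwf
  obtain ⟨hr, htr, has⟩ := h2 k
  by_cases hex : ∃ t : T k, (Sum.inr t : E k) ∈ s
  · set S : Finset (T k) := s.preimage Sum.inr (Sum.inr_injective.injOn) with hS
    have hSne : S.Nonempty := by
      obtain ⟨t, ht⟩ := hex
      exact ⟨t, Finset.mem_preimage.2 ht⟩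
    obtain ⟨t, ht, hmin⟩ := exists_min (le k) hr htr has S hSne
    have hts : (Sum.inr t : E k) ∈ s := Finset.mem_preimage.1 ht
    obtain ⟨G, hG1, hG2, hG3⟩ := h5 τ k 0 t (hwf _ hts)
    obtain ⟨hv1, hv2⟩ := hG3 (gm τ G) (fun x => Sum.inr x) (fun p => Sum.inl p) (gm_host τ G)
    refine ⟨gm τ G, fun x => Sum.inr x, Sum.inl G.root, ?_, fun _ => rfl, ?_⟩
    · rintro hτ (p | x)
      · rcases hG2 hτ p with ⟨q, hq⟩ | ⟨x, hx⟩
        · exact ⟨Sum.inl q, hq⟩
        · exact ⟨Sum.inr x, hG1 p x hx, hx⟩
      · exact ⟨Sum.inr x, hτ, rfl⟩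
    · unfold vs
      rw [Finset.sum_eq_single (Sum.inr t : E k)]
      · exact hv1
      · rintro (x | t') he hne
        · simp only [ve]
          exact if_neg Sum.inl_ne_inr
        · by_contra hcon
          have h6 := hv2 t' (hwf _ he) hcon
          exact hne (by rw [hmin t' (Finset.mem_preimage.2 he) h6])
      · intro h
        exact absurd hts h
  · push Not at hex
    obtain ⟨e, he⟩ := hs
    rcases e with x | t
    · refine ⟨{ W := Nm, R := fun a b => a = b, V := fun _ _ => False, nm := fun i => .nom i },
        fun y => y, x, fun _ w => ⟨w, rfl⟩, fun _ => rfl, ?_⟩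
      unfold vs
      rw [Finset.sum_eq_single (Sum.inl x : E k)]
      · show (if x = x then (1 : ZMod 2) else 0) = 1
        rw [if_pos rfl]
      · rintro (y | t) hy hne
        · show (if x = y then (1 : ZMod 2) else 0) = 0
          rw [if_neg]
          rintro rfl
          exact hne rfl
        · exact absurd hy (hex t)
      · intro h
        exact absurd he h
    · exact absurd he (hex t)

theorem sem (h1 : A1) (h4 : A4) (h6 : A6) : Sem := by
  intro 𝔅 hB φ hφ k hk
  have key : ∀ τ : Bool, (∃ (K : Model) (g : ℕ → K.W) (w : K.W),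
      (τ = true → ∀ w, ∃ v, K.R w v) ∧ tv K φ g w = true) ↔ (sup τ φ k env0 0).Nonempty := by
    intro τ
    have henv : ∀ x j, env0 x = .lv j → j ≤ 0 := by
      intro x j h
      exact absurd h (by unfold env0; exact Nm.noConfusion)
    have hif : ∀ (K : Model) (ρ : Nm → K.W) (w : K.W) (x : ℕ),
        (if env0 x = .lv 0 then w else ρ (env0 x)) = ρ (.fr x) := by
      intro K ρ w x
      rw [if_neg (by unfold env0; exact Nm.noConfusion)]
      rfl
    constructor
    · rintro ⟨K, g, w, htot, htv⟩
      let ρ : Nm → K.W := fun n => match n with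
          | .nom i => K.nm i
          | .fr x => g x
          | .lv _ => w
      have h := (h1 𝔅 hB τ K htot φ hφ k hk env0 0 henv ρ (fun _ => rfl) g w
        (fun x => (hif K ρ w x).symm)).1 htv
      by_contra hne
      rw [Finset.not_nonempty_iff_eq_empty] at hne
      rw [hne] at h
      unfold vs at h
      rw [Finset.sum_empty] at h
      exact absurd h (by decide)
    · intro hne
      obtain ⟨K, ρ, w, htot, hnm, hvs⟩ := h6 τ k _ hne (h4 𝔅 τ φ k env0 0 henv)
      exact ⟨K, fun x => ρ (.fr x), w, htot, (h1 𝔅 hB τ K htot φ hφ k hk env0 0 henv ρ hnm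
        (fun x => ρ (.fr x)) w (fun x => (hif K ρ w x).symm)).2 hvs⟩
  constructor
  · rw [← key false]
    constructor
    · rintro ⟨K, g, w, -, h⟩
      exact ⟨K, g, w, fun h => absurd h (by decide), h⟩
    · rintro ⟨K, g, w, -, h⟩
      exact ⟨K, g, w, trivial, h⟩
  · rw [← key true]
    constructor
    · rintro ⟨K, g, w, hM, h⟩
      exact ⟨K, g, w, fun _ => hM, h⟩
    · rintro ⟨K, g, w, hM, h⟩
      exact ⟨K, g, w, hM rfl, h⟩

end Pool.Agent.H89B.NF
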